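import Pool.Agent.N659.HB.Stm3
import Pool.Agent.N622.HB.Chc

/-!
Norm estimates for arrays in a Hilbert space (helper756), after `Pool.Agent.N622.HB.Chc` (helper622).
-/

set_option autoImplicit false
set_option linter.unusedSectionVars false

namespace Pool.Agent.N756.KS

open Finset Pool.Agent.N659.HB Pool.Agent.N622.HB

noncomputable section

variable {F : Type} [NormedAddCommGroup F] [InnerProductSpace ℂ F]

lemma csF {Λ : Type} (s : Finset Λ) (a : Λ → ℂ) (g : Λ → F) :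
    ‖∑ y ∈ s, a y • g y‖ ^ 2 ≤ (∑ y ∈ s, ‖a y‖ ^ 2) * ∑ y ∈ s, ‖g y‖ ^ 2 := by
  have h1 : ‖∑ y ∈ s, a y • g y‖ ≤ ∑ y ∈ s, ‖a y‖ * ‖g y‖ := by
    refine (norm_sum_le _ _).trans (le_of_eq ?_)
    exact sum_congr rfl fun y _ => norm_smul _ _
  calc ‖∑ y ∈ s, a y • g y‖ ^ 2 ≤ (∑ y ∈ s, ‖a y‖ * ‖g y‖) ^ 2 :=
        pow_le_pow_left₀ (norm_nonneg _) h1 2
    _ ≤ _ := sum_mul_sq_le_sq_mul_sq s _ _

variable {Λ : Type} [Fintype Λ] [DecidableEq Λ]

/-- the operator norm for vectors with values in a Hilbert space -/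
lemma opF {T : Λ → Λ → ℂ} {M : ℝ}
    (hop : ∀ u : Λ → ℂ, ∑ x, ‖∑ y, T x y * u y‖ ^ 2 ≤ M ^ 2 * ∑ y, ‖u y‖ ^ 2) (u : Λ → F) :
    ∑ x, ‖∑ y, T x y • u y‖ ^ 2 ≤ M ^ 2 * ∑ y, ‖u y‖ ^ 2 := by
  set W : Submodule ℂ F := Submodule.span ℂ (Set.range u) with hW
  have : FiniteDimensional ℂ W := FiniteDimensional.span_of_finite ℂ (Set.finite_range u)
  set e := stdOrthonormalBasis ℂ W with he
  set v : Λ → W := fun y => ⟨u y, Submodule.subset_span ⟨y, rfl⟩⟩ with hv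
  have h1 : ∀ y, ‖u y‖ = ‖v y‖ := fun y => rfl
  have h2 : ∀ x, ‖∑ y, T x y • u y‖ = ‖∑ y, T x y • v y‖ := by
    intro x
    have e2 : ((∑ y, T x y • v y : W) : F) = ∑ y, T x y • u y := by
      rw [Submodule.coe_sum]
      rfl
    rw [← e2]
    rfl
  simp only [h1, h2]
  have h3 : ∀ w : W, ‖w‖ ^ 2 = ∑ j, ‖inner ℂ (e j) w‖ ^ 2 := fun w => (e.sum_sq_norm_inner_right w).symm
  have h4 : ∀ x, ‖∑ y, T x y • v y‖ ^ 2 = ∑ j, ‖∑ y, T x y * inner ℂ (e j) (v y)‖ ^ 2 := by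
    intro x
    rw [h3]
    refine sum_congr rfl fun j _ => ?_
    rw [inner_sum]
    congr 2
    exact sum_congr rfl fun y _ => inner_smul_right _ _ _
  calc ∑ x, ‖∑ y, T x y • v y‖ ^ 2 = ∑ j, ∑ x, ‖∑ y, T x y * inner ℂ (e j) (v y)‖ ^ 2 := by
        rw [sum_comm]
        exact sum_congr rfl fun x _ => h4 x
    _ ≤ ∑ j, M ^ 2 * ∑ y, ‖inner ℂ (e j) (v y)‖ ^ 2 := sum_le_sum fun j _ => hop _
    _ = M ^ 2 * ∑ y, ‖v y‖ ^ 2 := by
        rw [← mul_sum, sum_comm]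
        congr 1
        exact sum_congr rfl fun y _ => (h3 (v y)).symm

/-- the sites in the set -/
def innF (G : Λ → Finset Λ → F) : ℝ := √(∑ S : Finset Λ, ∑ y ∈ S, ‖G y S‖ ^ 2)

/-- the sites outside of the set -/
def outF (G : Λ → Finset Λ → F) : ℝ := √(∑ S : Finset Λ, ∑ y ∈ Sᶜ, ‖G y S‖ ^ 2)

lemma innF_sq (G : Λ → Finset Λ → F) : innF G ^ 2 = ∑ S : Finset Λ, ∑ y ∈ S, ‖G y S‖ ^ 2 :=
  Real.sq_sqrt (sum_nonneg fun _ _ => sum_nonneg fun _ _ => sq_nonneg _)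

lemma outF_sq (G : Λ → Finset Λ → F) : outF G ^ 2 = ∑ S : Finset Λ, ∑ y ∈ Sᶜ, ‖G y S‖ ^ 2 :=
  Real.sq_sqrt (sum_nonneg fun _ _ => sum_nonneg fun _ _ => sq_nonneg _)

lemma innF_nonneg (G : Λ → Finset Λ → F) : 0 ≤ innF G := Real.sqrt_nonneg _

lemma outF_nonneg (G : Λ → Finset Λ → F) : 0 ≤ outF G := Real.sqrt_nonneg _

lemma totalF (G : Λ → Finset Λ → F) :
    ∑ y, ∑ S : Finset Λ, ‖G y S‖ ^ 2 = innF G ^ 2 + outF G ^ 2 := by
  rw [sum_comm, innF_sq, outF_sq, ← sum_add_distrib]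
  exact sum_congr rfl fun S _ => (sum_add_sum_compl S _).symm

section Step

variable {T : Λ → Λ → ℂ} {M θ b : ℝ}

lemma split_sumF (S : Finset Λ) (a : Λ → ℂ) (g : Λ → F) :
    ‖∑ y, a y • g y‖ ≤ 1 * ‖∑ y ∈ S, a y • g y‖ + 1 * ‖∑ y ∈ Sᶜ, a y • g y‖ := by
  rw [← sum_add_sum_compl S, one_mul, one_mul]
  exact norm_add_le _ _

lemma step_outF (hM : 0 ≤ M)
    (hop : ∀ u : Λ → ℂ, ∑ x, ‖∑ y, T x y * u y‖ ^ 2 ≤ M ^ 2 * ∑ y, ‖u y‖ ^ 2)
    (hθ : 0 ≤ θ) (hcol : ∀ y, ∑ x, ‖T x y‖ ^ 2 ≤ θ) (g : Λ → F) (S : Finset Λ) {m : ℕ}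
    (hm : S.card ≤ m) :
    √(∑ y ∈ Sᶜ, ‖∑ y', T y y' • g y'‖ ^ 2) ≤
      √(m * θ) * √(∑ y ∈ S, ‖g y‖ ^ 2) + M * √(∑ y ∈ Sᶜ, ‖g y‖ ^ 2) := by
  have h1 := mink Sᶜ (fun y => ‖∑ y', T y y' • g y'‖) (fun y => ‖∑ y' ∈ S, T y y' • g y'‖)
    (fun y => ‖∑ y' ∈ Sᶜ, T y y' • g y'‖) zero_le_one zero_le_one (fun _ _ => norm_nonneg _)
    (fun y _ => split_sumF S (T y) g)
  rw [one_mul, one_mul] at h1
  refine h1.trans (add_le_add ?_ ?_)
  · rw [← Real.sqrt_mul (by positivity)]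
    apply Real.sqrt_le_sqrt
    calc ∑ y ∈ Sᶜ, ‖∑ y' ∈ S, T y y' • g y'‖ ^ 2
        ≤ ∑ y ∈ Sᶜ, (∑ y' ∈ S, ‖T y y'‖ ^ 2) * ∑ y' ∈ S, ‖g y'‖ ^ 2 :=
          sum_le_sum fun y _ => csF S (T y) g
      _ = (∑ y ∈ Sᶜ, ∑ y' ∈ S, ‖T y y'‖ ^ 2) * ∑ y' ∈ S, ‖g y'‖ ^ 2 := by rw [sum_mul]
      _ ≤ (m * θ) * ∑ y' ∈ S, ‖g y'‖ ^ 2 := by
          apply mul_le_mul_of_nonneg_right _ (sum_nonneg fun _ _ => sq_nonneg _)
          rw [sum_comm]
          calc ∑ y' ∈ S, ∑ y ∈ Sᶜ, ‖T y y'‖ ^ 2 ≤ ∑ y' ∈ S, θ := by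
                refine sum_le_sum fun y' _ => le_trans ?_ (hcol y')
                exact sum_le_sum_of_subset_of_nonneg (subset_univ _) fun _ _ _ => sq_nonneg _
            _ = S.card * θ := by rw [sum_const, nsmul_eq_mul]
            _ ≤ m * θ := by gcongr
  · rw [← Real.sqrt_sq hM, ← Real.sqrt_mul (sq_nonneg M)]
    apply Real.sqrt_le_sqrt
    have h2 := opF hop (fun y => if y ∈ Sᶜ then g y else 0)
    have h3 : ∀ y, ∑ y', T y y' • (if y' ∈ Sᶜ then g y' else 0) = ∑ y' ∈ Sᶜ, T y y' • g y' := by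
      intro y
      simp only [smul_ite, smul_zero]
      rw [← sum_filter]
      congr 1
      ext y'
      simp
    have h4 : ∑ y, ‖(if y ∈ Sᶜ then g y else 0)‖ ^ 2 = ∑ y ∈ Sᶜ, ‖g y‖ ^ 2 := by
      rw [← sum_add_sum_compl Sᶜ]
      have h5 : ∑ y ∈ Sᶜᶜ, ‖(if y ∈ Sᶜ then g y else 0)‖ ^ 2 = 0 := by
        apply sum_eq_zero
        intro y hy
        rw [if_neg (by rw [mem_compl] at hy; exact hy)]
        simp
      rw [h5, add_zero]
      refine sum_congr rfl fun y hy => ?_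
      rw [if_pos hy]
    rw [h4] at h2
    refine le_trans ?_ h2
    simp only [h3]
    exact sum_le_sum_of_subset_of_nonneg (subset_univ _) fun _ _ _ => sq_nonneg _

lemma step_inF (hb : 0 ≤ b) (hbd : ∀ x y, ‖T x y‖ ≤ b) (hθ : 0 ≤ θ)
    (hrow : ∀ x, ∑ y, ‖T x y‖ ^ 2 ≤ θ) (g : Λ → F) (S : Finset Λ) {m : ℕ} (hm : S.card ≤ m) :
    √(∑ y ∈ S, ‖∑ y', T y y' • g y'‖ ^ 2) ≤
      (m * b) * √(∑ y ∈ S, ‖g y‖ ^ 2) + √(m * θ) * √(∑ y ∈ Sᶜ, ‖g y‖ ^ 2) := by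
  have h1 := mink S (fun y => ‖∑ y', T y y' • g y'‖) (fun y => ‖∑ y' ∈ S, T y y' • g y'‖)
    (fun y => ‖∑ y' ∈ Sᶜ, T y y' • g y'‖) zero_le_one zero_le_one (fun _ _ => norm_nonneg _)
    (fun y _ => split_sumF S (T y) g)
  rw [one_mul, one_mul] at h1
  have hmr : (S.card : ℝ) ≤ m := by exact_mod_cast hm
  refine h1.trans (add_le_add ?_ ?_)
  · have hmb : (0 : ℝ) ≤ m * b := by positivity
    rw [← Real.sqrt_sq hmb, ← Real.sqrt_mul (sq_nonneg _)]
    apply Real.sqrt_le_sqrt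
    have h2 : ∀ y ∈ S, ‖∑ y' ∈ S, T y y' • g y'‖ ^ 2 ≤ (m * b ^ 2) * ∑ y' ∈ S, ‖g y'‖ ^ 2 := by
      intro y _
      refine (csF S (T y) g).trans ?_
      apply mul_le_mul_of_nonneg_right _ (sum_nonneg fun _ _ => sq_nonneg _)
      calc ∑ y' ∈ S, ‖T y y'‖ ^ 2 ≤ ∑ y' ∈ S, b ^ 2 :=
            sum_le_sum fun y' _ => pow_le_pow_left₀ (norm_nonneg _) (hbd y y') 2
        _ = S.card * b ^ 2 := by rw [sum_const, nsmul_eq_mul]
        _ ≤ m * b ^ 2 := by gcongr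
    calc ∑ y ∈ S, ‖∑ y' ∈ S, T y y' • g y'‖ ^ 2
        ≤ ∑ y ∈ S, (m * b ^ 2) * ∑ y' ∈ S, ‖g y'‖ ^ 2 := sum_le_sum h2
      _ = S.card * ((m * b ^ 2) * ∑ y' ∈ S, ‖g y'‖ ^ 2) := by rw [sum_const, nsmul_eq_mul]
      _ ≤ m * ((m * b ^ 2) * ∑ y' ∈ S, ‖g y'‖ ^ 2) := by
          apply mul_le_mul_of_nonneg_right hmr
          have := sum_nonneg (fun y _ => sq_nonneg ‖g y‖ : ∀ y ∈ S, 0 ≤ ‖g y‖ ^ 2)
          positivity
      _ = _ := by ring
  · rw [← Real.sqrt_mul (by positivity)]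
    apply Real.sqrt_le_sqrt
    have h2 : ∀ y ∈ S, ‖∑ y' ∈ Sᶜ, T y y' • g y'‖ ^ 2 ≤ θ * ∑ y' ∈ Sᶜ, ‖g y'‖ ^ 2 := by
      intro y _
      refine (csF Sᶜ (T y) g).trans ?_
      apply mul_le_mul_of_nonneg_right _ (sum_nonneg fun _ _ => sq_nonneg _)
      exact (sum_le_sum_of_subset_of_nonneg (subset_univ _) fun _ _ _ => sq_nonneg _).trans
        (hrow y)
    calc ∑ y ∈ S, ‖∑ y' ∈ Sᶜ, T y y' • g y'‖ ^ 2
        ≤ ∑ y ∈ S, θ * ∑ y' ∈ Sᶜ, ‖g y'‖ ^ 2 := sum_le_sum h2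
      _ = S.card * (θ * ∑ y' ∈ Sᶜ, ‖g y'‖ ^ 2) := by rw [sum_const, nsmul_eq_mul]
      _ ≤ m * (θ * ∑ y' ∈ Sᶜ, ‖g y'‖ ^ 2) := by
          apply mul_le_mul_of_nonneg_right hmr
          have := sum_nonneg (fun y _ => sq_nonneg ‖g y‖ : ∀ y ∈ Sᶜ, 0 ≤ ‖g y‖ ^ 2)
          positivity
      _ = _ := by ring

/-- `H` -/
def hh (T : Λ → Λ → ℂ) (G : Λ → Finset Λ → F) (y : Λ) (S : Finset Λ) : F := ∑ y', T y y' • G y' S

lemma hh_out (hM : 0 ≤ M)
    (hop : ∀ u : Λ → ℂ, ∑ x, ‖∑ y, T x y * u y‖ ^ 2 ≤ M ^ 2 * ∑ y, ‖u y‖ ^ 2)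
    (hθ : 0 ≤ θ) (hcol : ∀ y, ∑ x, ‖T x y‖ ^ 2 ≤ θ) {G : Λ → Finset Λ → F} {m : ℕ}
    (hG : ∀ y S, m < S.card → G y S = 0) :
    √(∑ S : Finset Λ, ∑ y ∈ Sᶜ, ‖hh T G y S‖ ^ 2) ≤ √(m * θ) * innF G + M * outF G := by
  unfold innF outF hh
  refine mink_sets univ _ _ _ (Real.sqrt_nonneg _) hM (fun _ _ => sum_nonneg fun _ _ => sq_nonneg _)
    (fun _ _ => sum_nonneg fun _ _ => sq_nonneg _) (fun _ _ => sum_nonneg fun _ _ => sq_nonneg _)
    fun S _ => ?_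
  rcases le_or_gt S.card m with h | h
  · exact step_outF hM hop hθ hcol (fun y => G y S) S h
  · have h2 : ∀ y, ∑ y', T y y' • G y' S = 0 := fun y => sum_eq_zero fun y' _ => by
      rw [hG y' S h, smul_zero]
    simp only [h2]
    simp only [norm_zero, ne_eq, OfNat.ofNat_ne_zero, not_false_eq_true, zero_pow, sum_const_zero,
      Real.sqrt_zero]
    positivity

lemma hh_inn (hb : 0 ≤ b) (hbd : ∀ x y, ‖T x y‖ ≤ b) (hθ : 0 ≤ θ)
    (hrow : ∀ x, ∑ y, ‖T x y‖ ^ 2 ≤ θ) {G : Λ → Finset Λ → F} {m : ℕ}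
    (hG : ∀ y S, m < S.card → G y S = 0) :
    √(∑ S : Finset Λ, ∑ y ∈ S, ‖hh T G y S‖ ^ 2) ≤ (m * b) * innF G + √(m * θ) * outF G := by
  unfold innF outF hh
  refine mink_sets univ _ _ _ (by positivity) (Real.sqrt_nonneg _)
    (fun _ _ => sum_nonneg fun _ _ => sq_nonneg _)
    (fun _ _ => sum_nonneg fun _ _ => sq_nonneg _) (fun _ _ => sum_nonneg fun _ _ => sq_nonneg _)
    fun S _ => ?_
  rcases le_or_gt S.card m with h | h
  · exact step_inF hb hbd hθ hrow (fun y => G y S) S h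
  · have h2 : ∀ y, ∑ y', T y y' • G y' S = 0 := fun y => sum_eq_zero fun y' _ => by
      rw [hG y' S h, smul_zero]
    simp only [h2]
    simp only [norm_zero, ne_eq, OfNat.ofNat_ne_zero, not_false_eq_true, zero_pow, sum_const_zero,
      Real.sqrt_zero]
    positivity

/-- the mean -/
lemma hh_empty (hb : 0 ≤ b) (hbd : ∀ x y, ‖T x y‖ ≤ b) (hθ : 0 ≤ θ)
    (hrow : ∀ x, ∑ y, ‖T x y‖ ^ 2 ≤ θ) (G : Λ → Finset Λ → F) :
    √(∑ y, ‖hh T G y {y}‖ ^ 2) ≤ b * innF G + √θ * outF G := by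
  have hinj : Function.Injective fun y : Λ => ({y} : Finset Λ) := singleton_injective
  have h1 : ∀ φ : Finset Λ → ℝ, (∀ S, 0 ≤ φ S) → ∑ y : Λ, φ {y} ≤ ∑ S : Finset Λ, φ S := by
    intro φ hφ
    have h2 : ∑ y : Λ, φ {y} = ∑ S ∈ univ.map ⟨fun y : Λ => ({y} : Finset Λ), hinj⟩, φ S := by
      rw [sum_map]
      rfl
    rw [h2]
    exact sum_le_sum_of_subset_of_nonneg (subset_univ _) fun _ _ _ => hφ _
  have h2 := mink (univ : Finset Λ) (fun y => ‖hh T G y {y}‖) (fun y => ‖G y {y}‖)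
    (fun y => √(∑ y' ∈ ({y} : Finset Λ)ᶜ, ‖G y' {y}‖ ^ 2)) hb (Real.sqrt_nonneg θ)
    (fun _ _ => norm_nonneg _) (fun y _ => by
      unfold hh
      refine (split_sumF {y} (T y) (fun y' => G y' {y})).trans ?_
      rw [one_mul, one_mul, sum_singleton, norm_smul]
      refine add_le_add (mul_le_mul_of_nonneg_right (hbd y y) (norm_nonneg _)) ?_
      rw [← Real.sqrt_mul hθ, ← Real.sqrt_sq (norm_nonneg _)]
      apply Real.sqrt_le_sqrt
      refine (csF _ (T y) (fun y' => G y' {y})).trans ?_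
      apply mul_le_mul_of_nonneg_right _ (sum_nonneg fun _ _ => sq_nonneg _)
      exact (sum_le_sum_of_subset_of_nonneg (subset_univ _) fun _ _ _ => sq_nonneg _).trans
        (hrow y))
  refine h2.trans (add_le_add (mul_le_mul_of_nonneg_left ?_ hb)
    (mul_le_mul_of_nonneg_left ?_ (Real.sqrt_nonneg θ)))
  · apply Real.sqrt_le_sqrt
    have h3 := h1 (fun S => ∑ y ∈ S, ‖G y S‖ ^ 2) (fun _ => sum_nonneg fun _ _ => sq_nonneg _)
    simpa using h3
  · apply Real.sqrt_le_sqrt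
    have h3 := h1 (fun S => ∑ y ∈ Sᶜ, ‖G y S‖ ^ 2) (fun _ => sum_nonneg fun _ _ => sq_nonneg _)
    refine le_trans (le_of_eq ?_) h3
    refine sum_congr rfl fun y _ => ?_
    rw [Real.sq_sqrt (sum_nonneg fun _ _ => sq_nonneg _)]

lemma nx_innF {G G' : Λ → Finset Λ → F}
    (h : ∀ y S, y ∈ S → ‖G' y S‖ ≤ ‖hh T G y (S.erase y)‖ + ‖hh T G y S‖) :
    innF G' ≤ √(∑ S : Finset Λ, ∑ y ∈ Sᶜ, ‖hh T G y S‖ ^ 2) +
      √(∑ S : Finset Λ, ∑ y ∈ S, ‖hh T G y S‖ ^ 2) := by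
  have h1 := swap (fun y S => ‖hh T G y S‖ ^ 2)
  rw [← h1]
  unfold innF
  have h2 := mink_sets (univ : Finset (Finset Λ)) (fun S => ∑ y ∈ S, ‖G' y S‖ ^ 2)
    (fun S => ∑ y ∈ S, ‖hh T G y (symmDiff S {y})‖ ^ 2) (fun S => ∑ y ∈ S, ‖hh T G y S‖ ^ 2)
    zero_le_one zero_le_one
    (fun _ _ => sum_nonneg fun _ _ => sq_nonneg _)
    (fun _ _ => sum_nonneg fun _ _ => sq_nonneg _) (fun _ _ => sum_nonneg fun _ _ => sq_nonneg _)
    (fun S _ => mink S (fun y => ‖G' y S‖) (fun y => ‖hh T G y (symmDiff S {y})‖)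
      (fun y => ‖hh T G y S‖) zero_le_one zero_le_one (fun _ _ => norm_nonneg _) (fun y hy => by
        have e : symmDiff S {y} = S.erase y := by
          ext z
          simp only [mem_symmDiff, mem_singleton, mem_erase]
          constructor
          · rintro (⟨h3, h4⟩ | ⟨h3, h4⟩)
            · exact ⟨h4, h3⟩
            · rw [h3] at h4
              exact absurd hy h4
          · rintro ⟨h3, h4⟩
            exact Or.inl ⟨h4, h3⟩
        rw [e, one_mul, one_mul]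
        exact h y S hy))
  rw [one_mul, one_mul] at h2
  exact h2

lemma nx_outF {G G' : Λ → Finset Λ → F} (h : ∀ y S, y ∉ S → ‖G' y S‖ ≤ ‖hh T G y (insert y S)‖) :
    outF G' ≤ √(∑ S : Finset Λ, ∑ y ∈ S, ‖hh T G y S‖ ^ 2) := by
  have h1 := swap' (fun y S => ‖hh T G y S‖ ^ 2)
  rw [← h1]
  unfold outF
  apply Real.sqrt_le_sqrt
  refine sum_le_sum fun S _ => sum_le_sum fun y hy => ?_
  rw [mem_compl] at hy
  have e : symmDiff S {y} = insert y S := by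
    ext z
    simp only [mem_symmDiff, mem_singleton, mem_insert]
    constructor
    · rintro (⟨h3, h4⟩ | ⟨h3, h4⟩)
      · exact Or.inr h3
      · exact Or.inl h3
    · rintro (h3 | h3)
      · rw [h3]
        exact Or.inr ⟨rfl, hy⟩
      · refine Or.inl ⟨h3, ?_⟩
        rintro rfl
        exact hy h3
  rw [e]
  exact pow_le_pow_left₀ (norm_nonneg _) (h y S hy) 2

end Step

lemma inn_zeroF {G : Λ → Finset Λ → F} {f : Λ → ℝ} (h0 : ∀ y S, S ≠ {y} → G y S = 0)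
    (h1 : ∀ y, ‖G y {y}‖ ≤ f y) : innF G ≤ √(∑ y, f y ^ 2) := by
  unfold innF
  apply Real.sqrt_le_sqrt
  have h2 : ∀ S : Finset Λ, ∑ y ∈ S, ‖G y S‖ ^ 2 ≤ ∑ y, if S = {y} then f y ^ 2 else 0 := by
    intro S
    calc ∑ y ∈ S, ‖G y S‖ ^ 2 ≤ ∑ y ∈ S, (if S = {y} then f y ^ 2 else 0) := by
          refine sum_le_sum fun y _ => ?_
          split_ifs with h
          · rw [h]
            exact pow_le_pow_left₀ (norm_nonneg _) (h1 y) 2
          · rw [h0 y S h]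
            simp
      _ ≤ _ := sum_le_sum_of_subset_of_nonneg (subset_univ _) fun y _ _ => by
          split_ifs
          · positivity
          · exact le_rfl
  refine (sum_le_sum fun S _ => h2 S).trans ?_
  rw [sum_comm]
  refine le_of_eq (sum_congr rfl fun y _ => ?_)
  simp

lemma out_zeroF {G : Λ → Finset Λ → F} (h0 : ∀ y S, S ≠ {y} → G y S = 0) : outF G = 0 := by
  unfold outF
  rw [Real.sqrt_eq_zero']
  apply le_of_eq
  apply sum_eq_zero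
  intro S _
  apply sum_eq_zero
  intro y hy
  rw [h0 y S]
  · simp
  · rintro rfl
    simp at hy

lemma suppF {T : Λ → Λ → ℂ} {G : ℕ → Λ → Finset Λ → F} (h0 : ∀ y S, S ≠ {y} → G 0 y S = 0)
    (hin : ∀ k y S, y ∈ S → ‖G (k + 1) y S‖
        ≤ ‖∑ y', T y y' • G k y' (S.erase y)‖ + ‖∑ y', T y y' • G k y' S‖)
    (hout : ∀ k y S, y ∉ S → ‖G (k + 1) y S‖ ≤ ‖∑ y', T y y' • G k y' (insert y S)‖) (k : ℕ) :
    ∀ y S, k + 1 < S.card → G k y S = 0 := by
  induction k with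
  | zero =>
    intro y S hS
    apply h0
    rintro rfl
    simp at hS
  | succ k ih =>
    intro y S hS
    have key : ∀ S' : Finset Λ, k + 1 < S'.card → ∑ y', T y y' • G k y' S' = 0 := fun S' hS' =>
      sum_eq_zero fun y' _ => by rw [ih y' S' hS', smul_zero]
    rw [← norm_le_zero_iff]
    by_cases hy : y ∈ S
    · refine (hin k y S hy).trans (le_of_eq ?_)
      rw [key _ (by rw [card_erase_of_mem hy]; omega), key _ (by omega), norm_zero, add_zero]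
    · refine (hout k y S hy).trans (le_of_eq ?_)
      rw [key _ (by rw [card_insert_of_notMem hy]; omega), norm_zero]

theorem main : S_CG1 := by
  intro Λ _ _ F _ _ T M θ b κ hM hb hκ hop hrow hcol hbd hθM hbM hκ2 G f hG0 hGf hin hout k hk
  rcases isEmpty_or_nonempty Λ with hΛ | ⟨⟨x₀⟩⟩
  · simp
  have hθ : 0 ≤ θ := (sum_nonneg fun _ _ => sq_nonneg _).trans (hrow x₀)
  rcases eq_or_lt_of_le hb with hb0 | hb0
  · -- `T = 0`
    have hT : ∀ x y, T x y = 0 := fun x y => by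
      have h1 := hbd x y
      rw [← hb0] at h1
      exact norm_le_zero_iff.mp h1
    have hG : ∀ y S, G k y S = 0 := by
      intro y S
      obtain ⟨j, rfl⟩ : ∃ j, k = j + 1 := ⟨k - 1, by omega⟩
      have key : ∀ S' : Finset Λ, ∑ y', T y y' • G j y' S' = 0 := fun S' =>
        sum_eq_zero fun y' _ => by rw [hT, zero_smul]
      rw [← norm_le_zero_iff]
      by_cases hy : y ∈ S
      · refine (hin j y S hy).trans (le_of_eq ?_)
        rw [key, key, norm_zero, add_zero]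
      · refine (hout j y S hy).trans (le_of_eq ?_)
        rw [key, norm_zero]
    have hF : 0 ≤ ∑ y, f y ^ 2 := sum_nonneg fun _ _ => sq_nonneg _
    simp only [hG, norm_zero, ne_eq, OfNat.ofNat_ne_zero, not_false_eq_true, zero_pow,
      sum_const_zero]
    exact ⟨by positivity, by positivity⟩
  have hM0 : 0 < M := lt_of_lt_of_le hb0 hbM
  have hκ0 : 0 < κ := by
    rcases eq_or_lt_of_le hκ with h | h
    · exfalso
      rw [← h] at hκ2
      have : 0 < b * M := by positivity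
      linarith [hκ2]
    · exact h
  have hκM : κ / M ≤ 1 := by
    rw [div_le_one hM0]
    have : κ ^ 2 ≤ M ^ 2 := by
      rw [hκ2, sq]
      gcongr
    exact (sq_le_sq₀ hκ0.le hM0.le).mp this
  set N : ℝ := √(∑ y, f y ^ 2) with hN
  have hN0 : 0 ≤ N := Real.sqrt_nonneg _
  have hN2 : N ^ 2 = ∑ y, f y ^ 2 := Real.sq_sqrt (sum_nonneg fun _ _ => sq_nonneg _)
  have hsθ : ∀ m : ℕ, 1 ≤ m → √(m * θ) ≤ m * κ := by
    intro m hm
    have hm1 : (1 : ℝ) ≤ m := by exact_mod_cast hm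
    rw [Real.sqrt_le_left (by positivity)]
    calc (m : ℝ) * θ ≤ m * (b * M) := by gcongr
      _ = m * κ ^ 2 := by rw [hκ2]
      _ ≤ m * (m * κ ^ 2) := by
          have : κ ^ 2 ≤ m * κ ^ 2 := le_mul_of_one_le_left (sq_nonneg _) hm1
          gcongr
      _ = (m * κ) ^ 2 := by ring
  -- the recursion
  have key : ∀ j : ℕ, innF (G j) ≤ (4 * κ) ^ j * j.factorial * N ∧
      outF (G j) ≤ κ / M * ((4 * κ) ^ j * j.factorial * N) := by
    intro j
    induction j with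
    | zero =>
      rw [out_zeroF hG0]
      simp only [pow_zero, Nat.factorial_zero, Nat.cast_one, one_mul]
      exact ⟨inn_zeroF hG0 hGf, by positivity⟩
    | succ j ih =>
      obtain ⟨h1, h2⟩ := ih
      set P : ℝ := (4 * κ) ^ j * j.factorial * N with hP
      have hP0 : 0 ≤ P := by positivity
      have e : (4 * κ) ^ (j + 1) * (j + 1).factorial * N = 4 * ((j + 1 : ℕ) * κ) * P := by
        rw [hP, Nat.factorial_succ]
        push_cast
        ring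
      rw [e]
      have hm := hsθ (j + 1) (by omega)
      have hj1 : (1 : ℝ) ≤ (j + 1 : ℕ) := by
        push_cast
        have : (0 : ℝ) ≤ j := Nat.cast_nonneg j
        linarith
      have hs := suppF hG0 hin hout j
      have hPa : √(∑ S : Finset Λ, ∑ y ∈ Sᶜ, ‖hh T (G j) y S‖ ^ 2) ≤ 2 * ((j + 1 : ℕ) * κ) * P := by
        refine (hh_out hM hop hθ hcol hs).trans ?_
        calc √((j + 1 : ℕ) * θ) * innF (G j) + M * outF (G j)
            ≤ ((j + 1 : ℕ) * κ) * P + M * (κ / M * P) := by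
              have := innF_nonneg (G j)
              gcongr
          _ = ((j + 1 : ℕ) * κ) * P + κ * P := by
              field_simp
          _ ≤ ((j + 1 : ℕ) * κ) * P + ((j + 1 : ℕ) * κ) * P := by
              have : κ ≤ (j + 1 : ℕ) * κ := le_mul_of_one_le_left hκ0.le hj1
              gcongr
          _ = _ := by ring
      have hNa : √(∑ S : Finset Λ, ∑ y ∈ S, ‖hh T (G j) y S‖ ^ 2) ≤
          κ / M * (2 * ((j + 1 : ℕ) * κ) * P) := by
        refine (hh_inn hb hbd hθ hrow hs).trans ?_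
        calc ((j + 1 : ℕ) * b) * innF (G j) + √((j + 1 : ℕ) * θ) * outF (G j)
            ≤ ((j + 1 : ℕ) * b) * P + ((j + 1 : ℕ) * κ) * (κ / M * P) := by
              have := outF_nonneg (G j)
              gcongr
          _ = κ / M * (2 * ((j + 1 : ℕ) * κ) * P) := by
              have h3 : b = κ ^ 2 / M := by
                rw [hκ2]
                field_simp
              rw [h3]
              ring
      have hQ0 : 0 ≤ 2 * ((j + 1 : ℕ) * κ) * P := by positivity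
      have hNa' : κ / M * (2 * ((j + 1 : ℕ) * κ) * P) ≤ 2 * ((j + 1 : ℕ) * κ) * P :=
        mul_le_of_le_one_left hQ0 hκM
      constructor
      · refine (nx_innF (hin j)).trans ?_
        linarith
      · refine (nx_outF (hout j)).trans (hNa.trans ?_)
        apply mul_le_mul_of_nonneg_left _ (by positivity)
        linarith
  have hfac : ∀ j : ℕ, j ≤ k → (4 * κ) ^ j * (j.factorial : ℝ) ≤ (4 * k * κ) ^ j := by
    intro j hj
    have h1 : (j.factorial : ℝ) ≤ (k : ℝ) ^ j := by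
      have h2 : j.factorial ≤ j ^ j := Nat.factorial_le_pow j
      have h3 : j ^ j ≤ k ^ j := Nat.pow_le_pow_left hj j
      exact_mod_cast h2.trans h3
    calc (4 * κ) ^ j * (j.factorial : ℝ) ≤ (4 * κ) ^ j * (k : ℝ) ^ j := by gcongr
      _ = (4 * k * κ) ^ j := by
          rw [← mul_pow]
          congr 1
          ring
  have hF : 0 ≤ ∑ y, f y ^ 2 := sum_nonneg fun _ _ => sq_nonneg _
  constructor
  · rw [totalF]
    obtain ⟨h1, h2⟩ := key k
    have h3 := hfac k le_rfl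
    have h4 : (4 * κ) ^ k * (k.factorial : ℝ) * N ≤ (4 * k * κ) ^ k * N := by gcongr
    have h5 : innF (G k) ≤ (4 * k * κ) ^ k * N := h1.trans h4
    have h7 : outF (G k) ≤ (4 * k * κ) ^ k * N := by
      refine h2.trans ?_
      calc κ / M * ((4 * κ) ^ k * (k.factorial : ℝ) * N) ≤ 1 * ((4 * k * κ) ^ k * N) := by
            gcongr
        _ = _ := one_mul _
    have h8 := pow_le_pow_left₀ (innF_nonneg _) h5 2
    have h9 := pow_le_pow_left₀ (outF_nonneg _) h7 2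
    rw [← hN2]
    calc innF (G k) ^ 2 + outF (G k) ^ 2
        ≤ ((4 * k * κ) ^ k * N) ^ 2 + ((4 * k * κ) ^ k * N) ^ 2 := add_le_add h8 h9
      _ = _ := by ring
  · obtain ⟨j, rfl⟩ : ∃ j, k = j + 1 := ⟨k - 1, by omega⟩
    obtain ⟨h1, h2⟩ := key j
    have h3 := hfac j (by omega)
    rw [Nat.add_sub_cancel]
    have h4 := hh_empty hb hbd hθ hrow (G j)
    have h5 : √θ ≤ κ := by
      rw [Real.sqrt_le_left hκ0.le, hκ2]
      exact hθM
    have h6 : √(∑ y, ‖hh T (G j) y {y}‖ ^ 2) ≤ 2 * b * (4 * (j + 1 : ℕ) * κ) ^ j * N := by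
      refine h4.trans ?_
      have h7 : κ * (κ / M) = b := by
        have : κ * (κ / M) = κ ^ 2 / M := by ring
        rw [this, hκ2]
        field_simp
      have h8 : (4 * κ) ^ j * (j.factorial : ℝ) * N ≤ (4 * (j + 1 : ℕ) * κ) ^ j * N := by gcongr
      calc b * innF (G j) + √θ * outF (G j)
          ≤ b * ((4 * κ) ^ j * j.factorial * N) +
            κ * (κ / M * ((4 * κ) ^ j * j.factorial * N)) := by
            have := outF_nonneg (G j)
            gcongr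
        _ = 2 * b * ((4 * κ) ^ j * j.factorial * N) := by
            rw [← mul_assoc κ, h7]
            ring
        _ ≤ 2 * b * ((4 * (j + 1 : ℕ) * κ) ^ j * N) := by gcongr
        _ = _ := by ring
    have h7 := pow_le_pow_left₀ (Real.sqrt_nonneg _) h6 2
    rw [Real.sq_sqrt (sum_nonneg fun _ _ => sq_nonneg _)] at h7
    have h8 : ∑ y, ‖G (j + 1) y ∅‖ ^ 2 ≤ ∑ y, ‖hh T (G j) y {y}‖ ^ 2 := by
      refine sum_le_sum fun y _ => pow_le_pow_left₀ (norm_nonneg _) ?_ 2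
      exact hout j y ∅ (notMem_empty y)
    refine (h8.trans h7).trans (le_of_eq ?_)
    rw [← hN2]
    ring

end

end Pool.Agent.N756.KS
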